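import Mathlib

set_option autoImplicit false

/-!
# Flat manifolds, their complex structures and their automorphisms

Definitions for the problem MP_bb2d27_ag.
-/

noncomputable section

namespace Pool.Agent.V1165.Flat

/-- Euclidean space `ℝ^m`. -/
abbrev Euc (m : ℕ) : Type := EuclideanSpace ℝ (Fin m)

/-- `Isom(ℝ^m) = O(m) ⋉ ℝ^m`, the isometries of `ℝ^m`. -/
def Isom (m : ℕ) : Type := Euc m ≃ᵢ Euc m

variable {m : ℕ}

/-- `Isom(ℝ^m)` is a group under composition. -/
instance : Group (Isom m) := @IsometryEquiv.instGroup (Euc m) _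

/-- The map `ℝ^m → ℝ^m` given by an element of `Isom(ℝ^m)`. -/
def Isom.map (γ : Isom m) : Euc m → Euc m := (show Euc m ≃ᵢ Euc m from γ)

instance : CoeFun (Isom m) (fun _ => Euc m → Euc m) := ⟨Isom.map⟩

/-- The linear part `A` of an isometry `γ = (A, a)`, that is `A v = γ v - γ 0`. -/
def Isom.linearPart (γ : Isom m) (v : Euc m) : Euc m := γ v - γ 0

/-- `Γ` is discrete: some neighbourhood of the identity (the isometries which move the points of
the unit ball by less than `ε`) contains no other element of `Γ`. -/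
def IsDiscrete (Γ : Subgroup (Isom m)) : Prop :=
  ∃ ε : ℝ, 0 < ε ∧ ∀ γ ∈ Γ, (∀ x : Euc m, ‖x‖ ≤ 1 → dist (γ x) x < ε) → γ = 1

/-- `Γ` is cocompact: the translates of some compact set cover `ℝ^m`. -/
def IsCocompact (Γ : Subgroup (Isom m)) : Prop :=
  ∃ K : Set (Euc m), IsCompact K ∧ ∀ x : Euc m, ∃ γ ∈ Γ, γ x ∈ K

/-- `Γ` is torsion-free. -/
def IsTorsionFree (Γ : Subgroup (Isom m)) : Prop :=
  ∀ γ ∈ Γ, ∀ n : ℕ, n ≠ 0 → γ ^ n = 1 → γ = 1

/-- A Bieberbach group of dimension `m`: a discrete, cocompact, torsion-free subgroup `Γ` of the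
group `Isom(ℝ^m)`. -/
structure IsBieberbach (Γ : Subgroup (Isom m)) : Prop where
  discrete : IsDiscrete Γ
  cocompact : IsCocompact Γ
  torsionFree : IsTorsionFree Γ

/-- Two points of `ℝ^m` are equivalent if they lie in one orbit of `Γ`. -/
def SameOrbit (Γ : Subgroup (Isom m)) (x y : Euc m) : Prop := ∃ γ ∈ Γ, γ x = y

lemma sameOrbit_equivalence (Γ : Subgroup (Isom m)) : Equivalence (SameOrbit Γ) where
  refl x := ⟨1, Γ.one_mem, rfl⟩
  symm := by
    rintro x y ⟨γ, hγ, rfl⟩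
    exact ⟨γ⁻¹, Γ.inv_mem hγ, IsometryEquiv.symm_apply_apply (γ : Euc m ≃ᵢ Euc m) x⟩
  trans := by
    rintro x y z ⟨γ, hγ, rfl⟩ ⟨δ, hδ, rfl⟩
    exact ⟨δ * γ, Γ.mul_mem hδ hγ, rfl⟩

/-- The equivalence relation of lying in one orbit of `Γ`. -/
def orbitSetoid (Γ : Subgroup (Isom m)) : Setoid (Euc m) := ⟨SameOrbit Γ, sameOrbit_equivalence Γ⟩

/-- The flat manifold `M = ℝ^m / Γ`. -/
def FlatManifold (Γ : Subgroup (Isom m)) : Type := Quotient (orbitSetoid Γ)

/-- The quotient topology. -/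
instance (Γ : Subgroup (Isom m)) : TopologicalSpace (FlatManifold Γ) :=
  inferInstanceAs (TopologicalSpace (Quotient (orbitSetoid Γ)))

/-- The projection `ℝ^m → M`. -/
def proj (Γ : Subgroup (Isom m)) (x : Euc m) : FlatManifold Γ := Quotient.mk (orbitSetoid Γ) x

/-- The first Betti number of `M = ℝ^m / Γ`: the rank of the abelian group
`H_1(M, ℤ) = π_1(M)^ab = Γ^ab = Γ / [Γ, Γ]`. -/
def b1 (Γ : Subgroup (Isom m)) : Cardinal :=
  Module.rank ℤ (Additive (Abelianization Γ))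

/-- The real endomorphisms of `ℝ^m`. -/
abbrev Lin (m : ℕ) : Type := Euc m →ₗ[ℝ] Euc m

/-- A complex structure on `M = ℝ^m / Γ`: a linear map `J` with `J² = -1` which commutes with the
linear parts of the elements of `Γ`, that is, with the holonomy group. -/
structure IsComplexStructure (Γ : Subgroup (Isom m)) (J : Lin m) : Prop where
  sq : ∀ v, J (J v) = -v
  comm : ∀ γ ∈ Γ, ∀ v, J (γ.linearPart v) = γ.linearPart (J v)

/-- `GL(m, ℝ)`. -/
abbrev GLin (m : ℕ) : Type := Euc m ≃ₗ[ℝ] Euc m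

/-- `A` commutes with `J`. -/
def CommutesWith (J : Lin m) (A : GLin m) : Prop := ∀ v : Euc m, A (J v) = J (A v)

/-- The element `(A, a)` of `GL(m, ℝ) ⋉ ℝ^m`, that is, the affine map `x ↦ A x + a`. -/
def affine (A : GLin m) (a : Euc m) (x : Euc m) : Euc m := A x + a

/-- The map `f` from `M` to `M` lifts to the map `F` from `ℝ^m` to `ℝ^m`. -/
def LiftsTo (Γ : Subgroup (Isom m)) (f : FlatManifold Γ → FlatManifold Γ) (F : Euc m → Euc m) :
    Prop := ∀ x, f (proj Γ x) = proj Γ (F x)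

/-- `Aut(M, J)`: the homeomorphisms `f` of `M` which lift to an element `(A, a)` of
`GL(m, ℝ) ⋉ ℝ^m` such that `A` commutes with `J`. -/
def Aut (Γ : Subgroup (Isom m)) (J : Lin m) : Set (FlatManifold Γ ≃ₜ FlatManifold Γ) :=
  {f | ∃ (A : GLin m) (a : Euc m), LiftsTo Γ f (affine A a) ∧ CommutesWith J A}

end Pool.Agent.V1165.Flat
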