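import Pool.Agent.V1165.Flat.Main

set_option autoImplicit false

namespace Pool.Agent.V1165.Flat

open Complex

/-- Multiplication of the coordinates by nonzero numbers. -/
noncomputable def diag (d d' : I × Fin 2 → ℂ) (h : ∀ p, d' p * d p = 1) : V ≃ₗ[ℝ] V where
  toFun x := WithLp.toLp 2 fun p => d p * x p
  map_add' x y := by ext p; simp [mul_add]
  map_smul' r x := by ext p; simp; ring
  invFun x := WithLp.toLp 2 fun p => d' p * x p
  left_inv x := by ext p; simp [← mul_assoc, h]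
  right_inv x := by
    ext p
    have : d p * d' p = 1 := by rw [mul_comm, h]
    simp [← mul_assoc, this]

/-- The multipliers. -/
noncomputable def dw (p : I × Fin 2) : ℂ := if p.1 = none then w p.2 else 1
noncomputable def dw' (p : I × Fin 2) : ℂ := if p.1 = none then w' p.2 else 1

lemma dw'_mul_dw (p : I × Fin 2) : dw' p * dw p = 1 := by
  unfold dw dw'
  split_ifs
  · rw [mul_comm, w_mul_w']
  · rw [mul_one]

/-- The linear automorphism. -/
noncomputable def φ : Euc dim ≃ₗ[ℝ] Euc dim :=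
  Φ.toLinearEquiv.trans ((diag dw dw' dw'_mul_dw).trans Φ.symm.toLinearEquiv)

lemma φ_apply (x : Euc dim) (i : I) (j : Fin 2) : Φ (φ x) (i, j) = dw (i, j) * Φ x (i, j) := by
  unfold φ
  simp [diag]

lemma φ_symm_apply (x : Euc dim) (i : I) (j : Fin 2) :
    Φ (φ.symm x) (i, j) = dw' (i, j) * Φ x (i, j) := by
  have h := φ_apply (φ.symm x) i j
  rw [LinearEquiv.apply_symm_apply] at h
  rw [h, ← mul_assoc, dw'_mul_dw, one_mul]

lemma φ_conj {F : Isom dim} (hF : F ∈ Γ) : ∃ F' ∈ Γ, ∀ x, F' (φ x) = φ (F x) := by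
  obtain ⟨g, v, h⟩ := hF
  have hv : ∀ i, (fun j => dw (i, j) * v i j) ∈ S (ψ i g) := by
    intro i
    cases i with
    | none =>
      have := S_w (h.1 none)
      simpa [dw] using this
    | some t => simpa [dw] using h.1 (some t)
  have hr : Rep (mk g fun i j => dw (i, j) * v i j) g (fun i j => dw (i, j) * v i j) := rep_mk hv
  refine ⟨_, ⟨_, _, hr⟩, fun x => ext_coord fun i j => ?_⟩
  rw [hr.2, φ_apply, φ_apply, h.2]
  ring

lemma φ_symm_conj {F : Isom dim} (hF : F ∈ Γ) :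
    ∃ F' ∈ Γ, ∀ x, F' (φ.symm x) = φ.symm (F x) := by
  obtain ⟨g, v, h⟩ := hF
  have hv : ∀ i, (fun j => dw' (i, j) * v i j) ∈ S (ψ i g) := by
    intro i
    cases i with
    | none =>
      have := S_w' (h.1 none)
      simpa [dw'] using this
    | some t => simpa [dw'] using h.1 (some t)
  have hr : Rep (mk g fun i j => dw' (i, j) * v i j) g (fun i j => dw' (i, j) * v i j) :=
    rep_mk hv
  refine ⟨_, ⟨_, _, hr⟩, fun x => ext_coord fun i j => ?_⟩
  rw [hr.2, φ_symm_apply, φ_symm_apply, h.2]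
  ring

/-- The induced homeomorphism of `M`. -/
noncomputable def hφ : FlatManifold Γ ≃ₜ FlatManifold Γ where
  toFun := Quotient.map φ (by
    rintro x y ⟨γ, hγ, rfl⟩
    obtain ⟨γ', hγ', h⟩ := φ_conj hγ
    exact ⟨γ', hγ', h x⟩)
  invFun := Quotient.map φ.symm (by
    rintro x y ⟨γ, hγ, rfl⟩
    obtain ⟨γ', hγ', h⟩ := φ_symm_conj hγ
    exact ⟨γ', hγ', h x⟩)
  left_inv := by
    rintro ⟨x⟩
    exact congrArg (Quotient.mk (orbitSetoid Γ)) (φ.symm_apply_apply x)
  right_inv := by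
    rintro ⟨x⟩
    exact congrArg (Quotient.mk (orbitSetoid Γ)) (φ.apply_symm_apply x)
  continuous_toFun := by
    refine continuous_quot_lift _ ?_
    exact continuous_quotient_mk'.comp (LinearMap.continuous_of_finiteDimensional φ.toLinearMap)
  continuous_invFun := by
    refine continuous_quot_lift _ ?_
    exact continuous_quotient_mk'.comp
      (LinearMap.continuous_of_finiteDimensional φ.symm.toLinearMap)

lemma hφ_proj (x : Euc dim) : hφ (proj Γ x) = proj Γ (φ x) := rfl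

lemma hφ_pow_proj (n : ℕ) (x : Euc dim) : (hφ ^ n) (proj Γ x) = proj Γ ((φ ^ n) x) := by
  induction n with
  | zero => rfl
  | succ n ih =>
    rw [pow_succ', pow_succ', Homeomorph.mul_apply, ih, hφ_proj, LinearEquiv.mul_apply]

lemma φ_pow_apply (n : ℕ) (x : Euc dim) (i : I) (j : Fin 2) :
    Φ ((φ ^ n) x) (i, j) = dw (i, j) ^ n * Φ x (i, j) := by
  induction n with
  | zero => simp
  | succ n ih =>
    rw [pow_succ', pow_succ, LinearEquiv.mul_apply, φ_apply, ih]
    ring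

/-- A translation part for each holonomy. -/
noncomputable def vg (g : ZMod 5 × ZMod 5) (i : I) (j : Fin 2) : ℂ :=
  τ j * ev (Pi.single 0 ((ψ i g).val : ℤ)) j

lemma vg_mem (g : ZMod 5 × ZMod 5) (i : I) : vg g i ∈ S (ψ i g) :=
  ⟨Pi.single 0 ((ψ i g).val : ℤ), by simp, fun j => rfl⟩

/-- The linear parts. -/
noncomputable def L (g : ZMod 5 × ZMod 5) (x : Euc dim) : Euc dim := (mk g (vg g)).linearPart x

lemma L_apply (g : ZMod 5 × ZMod 5) (x : Euc dim) (i : I) (j : Fin 2) :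
    Φ (L g x) (i, j) = e (c j * χ i g) * Φ x (i, j) := mk_linear g _ x i j

lemma φ_eq (x : Euc dim) :
    φ x = x + (1 / 5 : ℝ) • ∑ a : ZMod 5, (L (a, 1) x + L (a, -1) x - (2 : ℝ) • L (a, 0) x) := by
  refine ext_coord fun i j => ?_
  have hsum : ∀ y : ZMod 5 → Euc dim, Φ (∑ a, y a) (i, j) = ∑ a, Φ (y a) (i, j) := by
    intro y
    rw [map_sum]
    simp
  rw [φ_apply, map_add, map_smul, PiLp.add_apply, PiLp.smul_apply, hsum]
  simp only [map_add, map_sub, map_smul, PiLp.add_apply, PiLp.sub_apply, PiLp.smul_apply, L_apply]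
  cases i with
  | none =>
    simp only [χ, dw, if_true, w, mul_one, mul_neg, mul_zero, e_zero, one_mul]
    simp [ZMod.card]
    ring
  | some t =>
    have h0 : ∀ s : ZMod 5, ∑ a : ZMod 5, e (c j * (a + s)) = 0 := by
      intro s
      have h := sum_e (c j)
      rw [if_neg (c_ne j), ← Equiv.sum_comp (Equiv.addRight s)] at h
      rw [← h]
      refine Finset.sum_congr rfl fun a _ => ?_
      simp [mul_comm]
    have h1 : ∑ a : ZMod 5, (e (c j * (a + t * 1)) * Φ x (some t, j) +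
        e (c j * (a + t * -1)) * Φ x (some t, j) -
        (2 : ℝ) • (e (c j * (a + t * 0)) * Φ x (some t, j))) = 0 := by
      rw [Finset.sum_sub_distrib, Finset.sum_add_distrib, ← Finset.smul_sum, ← Finset.sum_mul,
        ← Finset.sum_mul, ← Finset.sum_mul, h0, h0, h0]
      simp
    simp only [χ]
    rw [h1]
    simp [dw]

lemma J_comm {J : Euc dim →ₗ[ℝ] Euc dim} (hJ : IsComplexStructure Γ J) (x : Euc dim) :
    φ (J x) = J (φ x) := by
  have h : ∀ g y, J (L g y) = L g (J y) := fun g y =>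
    hJ.comm _ ⟨g, vg g, rep_mk (vg_mem g)⟩ y
  rw [φ_eq, φ_eq, map_add, map_smul, map_sum]
  simp only [map_add, map_sub, map_smul, h]

lemma J_comm_pow {J : Euc dim →ₗ[ℝ] Euc dim} (hJ : IsComplexStructure Γ J) (n : ℕ) (x : Euc dim) :
    (φ ^ n) (J x) = J ((φ ^ n) x) := by
  induction n with
  | zero => rfl
  | succ n ih => rw [pow_succ', LinearEquiv.mul_apply, LinearEquiv.mul_apply, ih, J_comm hJ]

lemma w_norm_pos : 0 < ‖w 0‖ := by
  rw [norm_pos_iff]
  intro h
  have := w_mul_w' 0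
  rw [h, zero_mul] at this
  exact zero_ne_one this

lemma pow_injective : Function.Injective fun n : ℕ => hφ ^ n := by
  intro n k hnk
  dsimp only at hnk
  -- a small vector in the first coordinate
  obtain ⟨ε, hε, hεn, hεk⟩ : ∃ ε : ℝ, 0 < ε ∧ ‖w 0‖ ^ n * ε < 1 / 16 ∧ ‖w 0‖ ^ k * ε < 1 / 16 := by
    have h1 : 0 < ‖w 0‖ ^ n := pow_pos w_norm_pos n
    have h2 : 0 < ‖w 0‖ ^ k := pow_pos w_norm_pos k
    refine ⟨1 / (32 * (‖w 0‖ ^ n + ‖w 0‖ ^ k)), by positivity, ?_, ?_⟩
    · rw [mul_one_div, div_lt_div_iff₀ (by positivity) (by norm_num)]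
      nlinarith
    · rw [mul_one_div, div_lt_div_iff₀ (by positivity) (by norm_num)]
      nlinarith
  set x : Euc dim := Φ.symm (WithLp.toLp 2 fun p => if p = (none, 0) then (ε : ℂ) else 0) with hx
  have hxc : ∀ i j, Φ x (i, j) = if (i, j) = ((none, 0) : I × Fin 2) then (ε : ℂ) else 0 := by
    intro i j
    rw [hx, Φ.apply_symm_apply]
  have h1 : proj Γ ((φ ^ n) x) = proj Γ ((φ ^ k) x) := by
    rw [← hφ_pow_proj, ← hφ_pow_proj, hnk]
  obtain ⟨γ, ⟨g, v, hr⟩, hγ⟩ := Quotient.exact h1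
  have h2 : ∀ i j, dw (i, j) ^ k * Φ x (i, j) =
      e (c j * χ i g) * (dw (i, j) ^ n * Φ x (i, j)) + v i j := by
    intro i j
    rw [← φ_pow_apply, ← φ_pow_apply, ← hγ, hr.2]
  have hsmall : ∀ i j, ‖v i j‖ < 1 / 8 := by
    intro i j
    have h3 := h2 i j
    rw [hxc] at h3
    split_ifs at h3 with hij
    · obtain ⟨rfl, rfl⟩ := Prod.mk.inj hij
      have hv : v none 0 = dw (none, 0) ^ k * (ε : ℂ) -
          e (c 0 * χ none g) * (dw (none, 0) ^ n * (ε : ℂ)) := by linear_combination -h3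
      rw [hv]
      have hd : dw (none, 0) = w 0 := by simp [dw]
      rw [hd]
      calc ‖w 0 ^ k * (ε : ℂ) - e (c 0 * χ none g) * (w 0 ^ n * (ε : ℂ))‖
          ≤ ‖w 0 ^ k * (ε : ℂ)‖ + ‖e (c 0 * χ none g) * (w 0 ^ n * (ε : ℂ))‖ := norm_sub_le _ _
        _ = ‖w 0‖ ^ k * ε + ‖w 0‖ ^ n * ε := by
            rw [norm_mul, norm_mul, norm_mul, norm_e, norm_pow, norm_pow, Complex.norm_real,
              Real.norm_of_nonneg hε.le, one_mul]
        _ < 1 / 16 + 1 / 16 := add_lt_add hεk hεn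
        _ = 1 / 8 := by norm_num
    · have hv : v i j = 0 := by linear_combination -h3
      rw [hv]; norm_num
  obtain ⟨rfl, rfl⟩ := hr.small hsmall
  have h4 := h2 none 0
  rw [hxc, if_pos rfl, χ_zero, mul_zero, e_zero, one_mul] at h4
  have hd : dw (none, 0) = w 0 := by simp [dw]
  rw [hd] at h4
  simp only [Pi.zero_apply, add_zero] at h4
  have h5 : w 0 ^ k = w 0 ^ n := by
    have : (ε : ℂ) ≠ 0 := by exact_mod_cast hε.ne'
    exact mul_right_cancel₀ this h4
  have h6 : ‖w 0‖ ^ k = ‖w 0‖ ^ n := by rw [← norm_pow, ← norm_pow, h5]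
  exact (pow_right_injective₀ w_norm_pos w_norm_ne_one h6).symm

lemma aut_infinite {J : Euc dim →ₗ[ℝ] Euc dim} (hJ : IsComplexStructure Γ J) :
    (Aut Γ J).Infinite := by
  refine Set.infinite_of_injective_forall_mem pow_injective fun n => ?_
  refine ⟨φ ^ n, 0, fun x => ?_, fun v => ?_⟩
  · rw [affine, add_zero]; exact hφ_pow_proj n x
  exact J_comm_pow hJ n v

/-- A complex structure. -/
noncomputable def J0 : Euc dim →ₗ[ℝ] Euc dim :=
  Φ.symm.toLinearEquiv.toLinearMap ∘ₗ (Complex.I • (LinearMap.id : V →ₗ[ℝ] V)) ∘ₗ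
    Φ.toLinearEquiv.toLinearMap

lemma J0_apply (x : Euc dim) (p : I × Fin 2) : Φ (J0 x) p = Complex.I * Φ x p := by
  unfold J0
  simp

lemma isComplexStructure_J0 : IsComplexStructure Γ J0 := by
  refine ⟨fun v => ext_coord fun i j => ?_, ?_⟩
  · rw [J0_apply, J0_apply, ← mul_assoc, Complex.I_mul_I, map_neg]
    simp
  · rintro γ ⟨g, v, h⟩ x
    obtain rfl := h.unique (rep_mk h.1)
    refine ext_coord fun i j => ?_
    rw [J0_apply, mk_linear, mk_linear, J0_apply]
    ring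

theorem main : ∃ (m : ℕ) (Γ : Subgroup (Isom m)), IsBieberbach Γ ∧ b1 Γ = 0 ∧
    (∃ J, IsComplexStructure Γ J) ∧ ∀ J, IsComplexStructure Γ J → (Aut Γ J).Infinite :=
  ⟨dim, Γ, isBieberbach_Γ, b1_Γ, ⟨J0, isComplexStructure_J0⟩, fun _ hJ => aut_infinite hJ⟩

end Pool.Agent.V1165.Flat
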