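import Mathlib

set_option autoImplicit false

namespace Pool.Agent.V1165.Flat

open Complex

/-- The standard character of `ZMod 5`: `e k = exp (2 π i k / 5)`. -/
noncomputable def e (k : ZMod 5) : ℂ := ZMod.stdAddChar (N := 5) k

lemma e_add (a b : ZMod 5) : e (a + b) = e a * e b := AddChar.map_add_eq_mul _ a b

@[simp] lemma e_zero : e 0 = 1 := AddChar.map_zero_eq_one _

lemma e_neg_mul (a : ZMod 5) : e (-a) * e a = 1 := by rw [← e_add]; simp

lemma norm_e (a : ZMod 5) : ‖e a‖ = 1 := by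
  unfold e
  rw [ZMod.stdAddChar_apply]
  exact Circle.norm_coe _

lemma e_ne_zero (a : ZMod 5) : e a ≠ 0 := by
  intro h
  have := norm_e a
  rw [h] at this
  simp at this

lemma conj_e (a : ZMod 5) : (starRingEnd ℂ) (e a) = e (-a) := by
  have h1 : e (-a) * e a = 1 := e_neg_mul a
  have h2 : (starRingEnd ℂ) (e a) * e a = 1 := by
    rw [mul_comm, Complex.mul_conj, Complex.normSq_eq_norm_sq, norm_e]; simp
  have := e_ne_zero a
  exact mul_right_cancel₀ this (h2.trans h1.symm)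

lemma sum_e (t : ZMod 5) : ∑ k : ZMod 5, e (k * t) = if t = 0 then 5 else 0 := by
  have := AddChar.sum_mulShift (R := ZMod 5) (R' := ℂ) t (ZMod.isPrimitive_stdAddChar 5)
  unfold e
  rw [this]
  split_ifs <;> simp [ZMod.card]

lemma e_ne_one {t : ZMod 5} (ht : t ≠ 0) : e t ≠ 1 := by
  intro h
  have h1 := sum_e t
  rw [if_neg ht] at h1
  have h2 : ∀ k : ZMod 5, e (k * t) = 1 := by
    intro k
    have : ∀ n : ℕ, e ((n : ZMod 5) * t) = 1 := by
      intro n
      induction n with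
      | zero => simp
      | succ n ih => push_cast; rw [add_mul, e_add, ih, one_mul, one_mul, h]
    have h3 := this k.val
    rwa [ZMod.natCast_zmod_val] at h3
  simp [h2] at h1

/-- The two embeddings: `c 0 = 1`, `c 1 = 2`. -/
def c : Fin 2 → ZMod 5 := ![1, 2]

lemma c_ne (j : Fin 2) : c j ≠ 0 := by fin_cases j <;> decide

/-- `ev m j = ∑ m k e (c j k)`. -/
noncomputable def ev (m : ZMod 5 → ℤ) (j : Fin 2) : ℂ := ∑ k : ZMod 5, (m k : ℂ) * e (c j * k)

lemma ev_add (m m' : ZMod 5 → ℤ) (j : Fin 2) : ev (m + m') j = ev m j + ev m' j := by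
  simp [ev, Finset.sum_add_distrib, add_mul]

lemma ev_neg (m : ZMod 5 → ℤ) (j : Fin 2) : ev (-m) j = - ev m j := by
  simp [ev]

lemma ev_zero (j : Fin 2) : ev 0 j = 0 := by simp [ev]

lemma ev_shift (m : ZMod 5 → ℤ) (t : ZMod 5) (j : Fin 2) :
    ev (fun k => m (k - t)) j = e (c j * t) * ev m j := by
  unfold ev
  rw [Finset.mul_sum, ← Equiv.sum_comp (Equiv.addRight t)]
  refine Finset.sum_congr rfl fun k _ => ?_
  simp only [Equiv.coe_addRight, add_sub_cancel_right]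
  rw [mul_add, e_add]
  ring

lemma sum_shift (m : ZMod 5 → ℤ) (t : ZMod 5) : ∑ k, m (k - t) = ∑ k, m k := by
  rw [← Equiv.sum_comp (Equiv.addRight t)]
  simp

/-- `τ j = 1 / (1 - e (c j))`. -/
noncomputable def τ (j : Fin 2) : ℂ := (1 - e (c j))⁻¹

lemma one_sub_ne (j : Fin 2) : 1 - e (c j) ≠ 0 := sub_ne_zero.2 (e_ne_one (c_ne j)).symm

lemma τ_ne (j : Fin 2) : τ j ≠ 0 := inv_ne_zero (one_sub_ne j)

/-- The coset `p τ + ℤ[ζ]` in `ℂ²`. -/
def S (p : ZMod 5) : Set (Fin 2 → ℂ) :=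
  {v | ∃ m : ZMod 5 → ℤ, ((∑ k, m k : ℤ) : ZMod 5) = p ∧ ∀ j, v j = τ j * ev m j}

lemma S_zero : (0 : Fin 2 → ℂ) ∈ S 0 := ⟨0, by simp, fun j => by simp [ev_zero]⟩

lemma S_add {p q : ZMod 5} {v w : Fin 2 → ℂ} (hv : v ∈ S p) (hw : w ∈ S q) :
    v + w ∈ S (p + q) := by
  obtain ⟨m, hm, hv⟩ := hv
  obtain ⟨m', hm', hw⟩ := hw
  refine ⟨m + m', ?_, fun j => ?_⟩
  · simp only [Pi.add_apply, Finset.sum_add_distrib]
    push_cast at hm hm' ⊢
    rw [hm, hm']
  · rw [Pi.add_apply, hv, hw, ev_add]; ring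

lemma S_neg {p : ZMod 5} {v : Fin 2 → ℂ} (hv : v ∈ S p) : -v ∈ S (-p) := by
  obtain ⟨m, hm, hv⟩ := hv
  refine ⟨-m, ?_, fun j => ?_⟩
  · simp only [Pi.neg_apply, Finset.sum_neg_distrib]
    push_cast at hm ⊢
    rw [hm]
  · rw [Pi.neg_apply, hv, ev_neg]; ring

lemma S_rot {p : ZMod 5} {v : Fin 2 → ℂ} (hv : v ∈ S p) (t : ZMod 5) :
    (fun j => e (c j * t) * v j) ∈ S p := by
  obtain ⟨m, hm, hv⟩ := hv
  refine ⟨fun k => m (k - t), ?_, fun j => ?_⟩
  · rw [sum_shift]; exact hm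
  · dsimp only; rw [hv, ev_shift]; ring

lemma S_zsmul {p : ZMod 5} {v : Fin 2 → ℂ} (hv : v ∈ S p) (n : ℤ) :
    (fun j => (n : ℂ) * v j) ∈ S (n * p) := by
  obtain ⟨m, hm, hv⟩ := hv
  refine ⟨fun k => n * m k, ?_, fun j => ?_⟩
  · rw [← Finset.mul_sum]; push_cast at hm ⊢; rw [hm]
  · dsimp only; rw [hv]; unfold ev; rw [Finset.mul_sum, Finset.mul_sum, Finset.mul_sum]
    refine Finset.sum_congr rfl fun k _ => ?_
    push_cast; ring

/-- The unit `w = ζ + ζ⁻¹ - 1`. -/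
noncomputable def w (j : Fin 2) : ℂ := e (c j) + e (-c j) - 1

/-- Its inverse `-2 - ζ - ζ⁻¹`. -/
noncomputable def w' (j : Fin 2) : ℂ := -2 - e (c j) - e (-c j)

lemma S_w {p : ZMod 5} {v : Fin 2 → ℂ} (hv : v ∈ S p) : (fun j => w j * v j) ∈ S p := by
  have h := S_add (S_add (S_rot hv 1) (S_rot hv (-1))) (S_neg hv)
  have h2 : p + p + -p = p := by ring
  rw [h2] at h
  convert h using 1
  funext j
  simp only [Pi.add_apply, Pi.neg_apply, w, mul_one, mul_neg]
  ring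

lemma S_w' {p : ZMod 5} {v : Fin 2 → ℂ} (hv : v ∈ S p) : (fun j => w' j * v j) ∈ S p := by
  have h := S_add (S_add (S_zsmul hv (-2)) (S_neg (S_rot hv (-1)))) (S_neg (S_rot hv 1))
  have h2 : ((-2 : ℤ) : ZMod 5) * p + -p + -p = p := by
    have : ∀ p : ZMod 5, ((-2 : ℤ) : ZMod 5) * p + -p + -p = p := by decide
    exact this p
  rw [h2] at h
  convert h using 1
  funext j
  simp only [Pi.add_apply, Pi.neg_apply, w', mul_one, mul_neg]
  push_cast
  ring

lemma sum_five (j : Fin 2) :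
    1 + e (c j) + e (2 * c j) + e (3 * c j) + e (4 * c j) = 0 := by
  have h := sum_e (c j)
  rw [if_neg (c_ne j)] at h
  have h2 : (∑ k : ZMod 5, e (k * c j)) = e (0 * c j) + e (1 * c j) + e (2 * c j) + e (3 * c j) +
      e (4 * c j) := Fin.sum_univ_five (fun k : ZMod 5 => e (k * c j))
  rw [h2] at h
  simpa using h

lemma w_mul_w' (j : Fin 2) : w j * w' j = 1 := by
  have h := sum_five j
  have h1 : e (2 * c j) = e (c j) * e (c j) := by rw [← e_add]; ring_nf
  have h3 : e (3 * c j) = e (- c j) * e (- c j) := by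
    rw [← e_add]; congr 1
    have : ∀ x : ZMod 5, 3 * x = -x + -x := by decide
    exact this _
  have h4 : e (4 * c j) = e (- c j) := by
    congr 1
    have : ∀ x : ZMod 5, 4 * x = -x := by decide
    exact this _
  have h5 : e (- c j) * e (c j) = 1 := e_neg_mul _
  rw [h1, h3, h4] at h
  unfold w w'
  linear_combination (-1 : ℂ) * h - 2 * h5

/-- `u - 1` with `u` real: `w 0` is real of absolute value `< 1`. -/
lemma w_norm_ne_one : ‖w 0‖ ≠ 1 := by
  -- `w = u - 1` with `u = 2 cos` and `u ^ 2 + u - 1 = 0`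
  have hreal : (starRingEnd ℂ) (w 0) = w 0 := by
    unfold w
    simp only [map_sub, map_add, conj_e, map_one, neg_neg]
    ring
  obtain ⟨x, hx⟩ := Complex.conj_eq_iff_real.1 hreal
  -- `w ^ 2 + 3 w + 1 = 0`
  have hq : w 0 * w 0 + 3 * w 0 + 1 = 0 := by
    have h := w_mul_w' 0
    have : w' 0 = -3 - w 0 := by unfold w w'; ring
    rw [this] at h
    linear_combination -h
  intro h
  rw [hx] at h hq
  have hq' : x * x + 3 * x + 1 = 0 := by
    have := congrArg Complex.re hq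
    simpa using this
  rw [Complex.norm_real, Real.norm_eq_abs] at h
  rcases abs_eq (by norm_num : (0 : ℝ) ≤ 1) |>.1 h with h1 | h1 <;> rw [h1] at hq' <;> norm_num at hq'

end Pool.Agent.V1165.Flat
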