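import Pool.Agent.V1165.Flat.Lattice

set_option autoImplicit false

namespace Pool.Agent.V1165.Flat

open Complex

lemma c_zero : c 0 = 1 := rfl
lemma c_one : c 1 = 2 := rfl

/-- Fourier inversion on `ZMod 5`: `5 m k = ∑ m + 2 Re (ev m 0 * e (-k) + ev m 1 * e (-2k))`. -/
lemma inversion (m : ZMod 5 → ℤ) (k : ZMod 5) :
    (5 * m k : ℝ) = (∑ l, m l : ℤ) +
      2 * (ev m 0 * e (-k) + ev m 1 * e (-(2 * k))).re := by
  have key : ((5 * m k : ℝ) : ℂ) = ((∑ l, m l : ℤ) : ℂ) + (ev m 0 * e (-k) +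
      (starRingEnd ℂ) (ev m 0 * e (-k))) + (ev m 1 * e (-(2 * k)) +
      (starRingEnd ℂ) (ev m 1 * e (-(2 * k)))) := by
    have h0 : ∀ l : ZMod 5, (1 : ℂ) + (e (l - k) + e (k - l)) + (e (2 * (l - k)) +
        e (2 * (k - l))) = if l = k then 5 else 0 := by
      intro l
      have h := sum_e (l - k)
      have h2 : (∑ j : ZMod 5, e (j * (l - k))) = e (0 * (l - k)) + e (1 * (l - k)) +
          e (2 * (l - k)) + e (3 * (l - k)) + e (4 * (l - k)) :=
        Fin.sum_univ_five (fun j : ZMod 5 => e (j * (l - k)))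
      rw [h2] at h
      have h3 : e (3 * (l - k)) = e (2 * (k - l)) := by
        congr 1
        have : ∀ x y : ZMod 5, 3 * (x - y) = 2 * (y - x) := by decide
        exact this _ _
      have h4 : e (4 * (l - k)) = e (k - l) := by
        congr 1
        have : ∀ x y : ZMod 5, 4 * (x - y) = y - x := by decide
        exact this _ _
      rw [h3, h4] at h
      by_cases hlk : l = k
      · subst hlk; simp at h ⊢; norm_num
      · rw [if_neg hlk]
        rw [if_neg (sub_ne_zero.2 hlk)] at h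
        rw [← h]; simp; ring
    have hconj : ∀ (j : Fin 2) (t : ZMod 5), (starRingEnd ℂ) (ev m j * e t) =
        ∑ l : ZMod 5, (m l : ℂ) * e (-(c j * l) - t) := by
      intro j t
      unfold ev
      rw [Finset.sum_mul, map_sum]
      refine Finset.sum_congr rfl fun l _ => ?_
      rw [map_mul, map_mul, conj_e, conj_e, sub_eq_add_neg, e_add]
      simp
      ring
    have hev : ∀ (j : Fin 2) (t : ZMod 5), ev m j * e t =
        ∑ l : ZMod 5, (m l : ℂ) * e (c j * l + t) := by
      intro j t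
      unfold ev
      rw [Finset.sum_mul]
      refine Finset.sum_congr rfl fun l _ => ?_
      rw [e_add]; ring
    rw [hconj, hconj, hev, hev, c_zero, c_one]
    push_cast
    rw [← Finset.sum_add_distrib, ← Finset.sum_add_distrib, ← Finset.sum_add_distrib,
      ← Finset.sum_add_distrib]
    have : ∀ l : ZMod 5, (m l : ℂ) + ((m l : ℂ) * e (1 * l + -k) +
        (m l : ℂ) * e (-(1 * l) - -k)) + ((m l : ℂ) * e (2 * l + -(2 * k)) +
        (m l : ℂ) * e (-(2 * l) - -(2 * k))) = if l = k then 5 * (m k : ℂ) else 0 := by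
      intro l
      have := h0 l
      have e1 : (1 : ZMod 5) * l + -k = l - k := by ring
      have e2 : -(1 * l) - -k = k - l := by ring
      have e3 : 2 * l + -(2 * k) = 2 * (l - k) := by ring
      have e4 : -(2 * l) - -(2 * k) = 2 * (k - l) := by ring
      rw [e1, e2, e3, e4]
      by_cases hlk : l = k
      · subst hlk
        rw [if_pos rfl] at this ⊢
        linear_combination (m l : ℂ) * this
      · rw [if_neg hlk] at this ⊢
        linear_combination (m l : ℂ) * this
    rw [Finset.sum_congr rfl fun l _ => this l]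
    simp
  have hre := congrArg Complex.re key
  simp only [Complex.add_re, Complex.conj_re, Complex.intCast_re, Complex.ofReal_re] at hre
  rw [hre, Complex.add_re]
  ring

/-- If `v ∈ S p` has small coordinates then `v = 0` and `p = 0`. -/
lemma S_small {p : ZMod 5} {v : Fin 2 → ℂ} (hv : v ∈ S p) (hs : ∀ j, ‖v j‖ < 1 / 8) :
    v = 0 ∧ p = 0 := by
  obtain ⟨m, hm, hv⟩ := hv
  have hev : ∀ j, ‖ev m j‖ < 1 / 4 := by
    intro j
    have h1 : ev m j = (1 - e (c j)) * v j := by
      rw [hv, τ, ← mul_assoc, mul_inv_cancel₀ (one_sub_ne j), one_mul]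
    have h2 : ‖1 - e (c j)‖ ≤ 2 := by
      calc ‖1 - e (c j)‖ ≤ ‖(1 : ℂ)‖ + ‖e (c j)‖ := norm_sub_le _ _
        _ = 2 := by rw [norm_e]; norm_num
    rw [h1, norm_mul]
    have := hs j
    nlinarith [norm_nonneg (v j), norm_nonneg (1 - e (c j))]
  have hre : ∀ k : ZMod 5, |(ev m 0 * e (-k) + ev m 1 * e (-(2 * k))).re| < 1 / 2 := by
    intro k
    calc |(ev m 0 * e (-k) + ev m 1 * e (-(2 * k))).re|
        ≤ ‖ev m 0 * e (-k) + ev m 1 * e (-(2 * k))‖ := Complex.abs_re_le_norm _
      _ ≤ ‖ev m 0 * e (-k)‖ + ‖ev m 1 * e (-(2 * k))‖ := norm_add_le _ _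
      _ = ‖ev m 0‖ + ‖ev m 1‖ := by rw [norm_mul, norm_mul, norm_e, norm_e]; ring
      _ < 1 / 4 + 1 / 4 := add_lt_add (hev 0) (hev 1)
      _ = 1 / 2 := by norm_num
  have hconst : ∀ k : ZMod 5, m k = m 0 := by
    intro k
    have h1 := inversion m k
    have h2 := inversion m 0
    have h3 := abs_lt.1 (hre k)
    have h4 := abs_lt.1 (hre 0)
    generalize (ev m 0 * e (-k) + ev m 1 * e (-(2 * k))).re = A at h1 h3
    generalize (ev m 0 * e (-0) + ev m 1 * e (-(2 * 0))).re = B at h2 h4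
    obtain ⟨h3a, h3b⟩ := h3
    obtain ⟨h4a, h4b⟩ := h4
    have h5 : (m k : ℝ) - m 0 < 1 := by linarith
    have h6 : (m 0 : ℝ) - m k < 1 := by linarith
    have h7 : m k - m 0 < 1 := by exact_mod_cast h5
    have h8 : m 0 - m k < 1 := by exact_mod_cast h6
    omega
  have hev0 : ∀ j, ev m j = 0 := by
    intro j
    unfold ev
    rw [Finset.sum_congr rfl fun k _ => by rw [hconst k], ← Finset.mul_sum]
    have h := sum_e (c j)
    rw [if_neg (c_ne j)] at h
    rw [Finset.sum_congr rfl fun k _ => by rw [mul_comm (c j) k], h, mul_zero]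
  constructor
  · funext j
    rw [hv, hev0, mul_zero]; rfl
  · rw [← hm, Finset.sum_congr rfl fun k _ => hconst k]
    simp only [Finset.sum_const, Finset.card_univ, ZMod.card, nsmul_eq_mul]
    push_cast
    have : ∀ x : ZMod 5, 5 * x = 0 := by decide
    exact this _

/-- Every vector of `ℂ²` is at bounded distance from `S 0`. -/
lemma S_cocompact (v : Fin 2 → ℂ) :
    ∃ l ∈ S 0, ∀ j, ‖v j - l j‖ ≤ 25 * ‖τ j‖ := by
  classical
  set y : Fin 2 → ℂ := fun j => (1 - e (c j)) * v j with hy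
  set r : ZMod 5 → ℝ := fun k => (2 / 5) * (y 0 * e (-k) + y 1 * e (-(2 * k))).re with hr
  have hsum : ∀ j, ∑ k : ZMod 5, (r k : ℂ) * e (c j * k) = y j := by
    intro j
    have hexp : ∀ k : ZMod 5, (r k : ℂ) = (1 / 5) * (y 0 * e (-k) + (starRingEnd ℂ) (y 0) * e k +
        (y 1 * e (-(2 * k)) + (starRingEnd ℂ) (y 1) * e (2 * k))) := by
      intro k
      have h1 : ((y 0 * e (-k) + y 1 * e (-(2 * k))).re : ℂ) = (1 / 2) *
          ((y 0 * e (-k) + y 1 * e (-(2 * k))) +
          (starRingEnd ℂ) (y 0 * e (-k) + y 1 * e (-(2 * k)))) := by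
        rw [Complex.add_conj]; push_cast; ring
      rw [hr]
      push_cast
      rw [h1]
      simp only [map_add, map_mul, conj_e, neg_neg]
      ring
    have hs : ∀ t : ZMod 5, ∑ k : ZMod 5, e (k * t) = if t = 0 then 5 else 0 := sum_e
    have hall : ∑ k : ZMod 5, (r k : ℂ) * e (c j * k) =
        (1 / 5) * (y 0 * (∑ k : ZMod 5, e (k * (c j - 1))) +
          (starRingEnd ℂ) (y 0) * (∑ k : ZMod 5, e (k * (c j + 1))) +
          (y 1 * (∑ k : ZMod 5, e (k * (c j - 2))) +
          (starRingEnd ℂ) (y 1) * (∑ k : ZMod 5, e (k * (c j + 2))))) := by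
      rw [Finset.mul_sum, Finset.mul_sum, Finset.mul_sum, Finset.mul_sum,
        ← Finset.sum_add_distrib, ← Finset.sum_add_distrib, ← Finset.sum_add_distrib,
        Finset.mul_sum]
      refine Finset.sum_congr rfl fun k _ => ?_
      rw [hexp]
      have e1 : e (k * (c j - 1)) = e (-k) * e (c j * k) := by rw [← e_add]; ring_nf
      have e2 : e (k * (c j + 1)) = e k * e (c j * k) := by rw [← e_add]; ring_nf
      have e3 : e (k * (c j - 2)) = e (-(2 * k)) * e (c j * k) := by rw [← e_add]; ring_nf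
      have e4 : e (k * (c j + 2)) = e (2 * k) * e (c j * k) := by rw [← e_add]; ring_nf
      rw [e1, e2, e3, e4]
      ring
    rw [hall, hs, hs, hs, hs]
    fin_cases j
    · have a1 : c 0 - 1 = 0 := by decide
      have a2 : c 0 + 1 ≠ 0 := by decide
      have a3 : c 0 - 2 ≠ 0 := by decide
      have a4 : c 0 + 2 ≠ 0 := by decide
      simp only [Fin.zero_eta, a1, a2, a3, a4, if_true, if_false]
      ring
    · have a1 : c 1 - 1 ≠ 0 := by decide
      have a2 : c 1 + 1 ≠ 0 := by decide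
      have a3 : c 1 - 2 = 0 := by decide
      have a4 : c 1 + 2 ≠ 0 := by decide
      simp only [Fin.mk_one, a1, a2, a3, a4, if_true, if_false]
      ring
  set m : ZMod 5 → ℤ := fun k => 5 * ⌊r k / 5⌋ with hm
  have hdist : ∀ k, |r k - m k| ≤ 5 := by
    intro k
    have h1 := Int.floor_le (r k / 5)
    have h2 := Int.lt_floor_add_one (r k / 5)
    rw [hm]
    push_cast
    rw [abs_le]
    constructor <;> linarith
  refine ⟨fun j => τ j * ev m j, ⟨m, ?_, fun j => rfl⟩, fun j => ?_⟩
  · rw [hm]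
    rw [← Finset.mul_sum]
    push_cast
    have : ∀ x : ZMod 5, 5 * x = 0 := by decide
    exact this _
  · have h1 : v j - τ j * ev m j = τ j * ∑ k : ZMod 5, ((r k - m k : ℝ) : ℂ) * e (c j * k) := by
      have h2 : v j = τ j * y j := by
        rw [hy, τ, ← mul_assoc, inv_mul_cancel₀ (one_sub_ne j), one_mul]
      rw [h2, ← hsum j, ev, ← mul_sub, ← Finset.sum_sub_distrib]
      congr 1
      refine Finset.sum_congr rfl fun k _ => ?_
      push_cast
      ring
    dsimp only
    rw [h1, norm_mul, mul_comm]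
    refine mul_le_mul_of_nonneg_right ?_ (norm_nonneg _)
    calc ‖∑ k : ZMod 5, ((r k - m k : ℝ) : ℂ) * e (c j * k)‖
        ≤ ∑ k : ZMod 5, ‖((r k - m k : ℝ) : ℂ) * e (c j * k)‖ := norm_sum_le _ _
      _ ≤ ∑ _k : ZMod 5, (5 : ℝ) := by
          refine Finset.sum_le_sum fun k _ => ?_
          rw [norm_mul, norm_e, mul_one, Complex.norm_real]
          exact hdist k
      _ = 25 := by simp [ZMod.card]; norm_num

/-- Multiplication by `5 / (ζ - 1)` preserves `S 0`. -/
lemma S_div {v : Fin 2 → ℂ} (hv : v ∈ S 0) :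
    ∃ l ∈ S 0, ∀ j, (e (c j) - 1) * l j = 5 * v j := by
  have h := S_neg (S_add (S_add (S_zsmul hv 4) (S_zsmul (S_rot hv 1) 3))
    (S_add (S_zsmul (S_rot hv 2) 2) (S_rot hv 3)))
  simp only [mul_zero, add_zero, neg_zero] at h
  refine ⟨_, h, fun j => ?_⟩
  have h0 := sum_five j
  have e1 : e (2 * c j) = e (c j) * e (c j) := by rw [← e_add]; ring_nf
  have e2 : e (3 * c j) = e (c j) * e (c j) * e (c j) := by rw [← e_add, ← e_add]; ring_nf
  have e3 : e (4 * c j) = e (c j) * e (c j) * e (c j) * e (c j) := by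
    rw [← e_add, ← e_add, ← e_add]; ring_nf
  have e4 : e (c j * 1) = e (c j) := by rw [mul_one]
  have e5 : e (c j * 2) = e (c j) * e (c j) := by rw [mul_comm, e1]
  have e6 : e (c j * 3) = e (c j) * e (c j) * e (c j) := by rw [mul_comm, e2]
  rw [e1, e2, e3] at h0
  simp only [Pi.neg_apply, Pi.add_apply, e4, e5, e6]
  push_cast
  linear_combination (-v j) * h0

end Pool.Agent.V1165.Flat
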