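import Pool.Agent.V1165.Flat.Defs
import Pool.Agent.V1165.Flat.Lattice2

set_option autoImplicit false

namespace Pool.Agent.V1165.Flat

open Complex

/-- The six components, indexed by the projective line over `ZMod 5`. -/
abbrev I : Type := Option (ZMod 5)

/-- The real Euclidean space `(ℂ²)^6`. -/
abbrev V : Type := PiLp 2 (fun _ : I × Fin 2 => ℂ)

/-- Its dimension (24). -/
noncomputable abbrev dim : ℕ := Module.finrank ℝ V

/-- Coordinates. -/
noncomputable def Φ : Euc dim ≃ₗᵢ[ℝ] V := (stdOrthonormalBasis ℝ V).repr.symm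

/-- The characters. -/
def χ : I → ZMod 5 × ZMod 5 → ZMod 5
  | none, g => g.2
  | some t, g => g.1 + t * g.2

/-- The translation parts. -/
def ψ : I → ZMod 5 × ZMod 5 → ZMod 5
  | none, g => g.1
  | some _, g => g.2

lemma χ_add (i : I) (g h : ZMod 5 × ZMod 5) : χ i (g + h) = χ i g + χ i h := by
  cases i <;> simp [χ]
  ring

lemma ψ_add (i : I) (g h : ZMod 5 × ZMod 5) : ψ i (g + h) = ψ i g + ψ i h := by
  cases i <;> simp [ψ]

@[simp] lemma χ_zero (i : I) : χ i 0 = 0 := by cases i <;> simp [χ]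
@[simp] lemma ψ_zero (i : I) : ψ i 0 = 0 := by cases i <;> simp [ψ]

lemma χ_neg (i : I) (g : ZMod 5 × ZMod 5) : χ i (-g) = -χ i g := by
  have := χ_add i g (-g)
  rw [add_neg_cancel, χ_zero] at this
  exact (neg_eq_of_add_eq_zero_right this.symm).symm

lemma ψ_neg (i : I) (g : ZMod 5 × ZMod 5) : ψ i (-g) = -ψ i g := by
  have := ψ_add i g (-g)
  rw [add_neg_cancel, ψ_zero] at this
  exact (neg_eq_of_add_eq_zero_right this.symm).symm

/-- An element is trivial as soon as it has a trivial `ψ i` whenever its `χ i` is trivial. -/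
lemma eq_zero_of {g : ZMod 5 × ZMod 5} (h : ∀ i, χ i g = 0 → ψ i g = 0) : g = 0 := by
  have : ∀ g : ZMod 5 × ZMod 5, (∀ i, χ i g = 0 → ψ i g = 0) → g = 0 := by decide
  exact this g h

@[simp] lemma mul_map (F F' : Isom dim) (x : Euc dim) : (F * F') x = F (F' x) := rfl
@[simp] lemma one_map (x : Euc dim) : (1 : Isom dim) x = x := rfl
lemma map_inv_map (F : Isom dim) (x : Euc dim) : F (F⁻¹ x) = x :=
  IsometryEquiv.apply_symm_apply (show Euc dim ≃ᵢ Euc dim from F) x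
lemma isom_ext {F F' : Isom dim} (h : ∀ x, F x = F' x) : F = F' :=
  @IsometryEquiv.ext (Euc dim) (Euc dim) _ _ F F' h

/-- `F` has holonomy `g` and translation part `v`. -/
def Rep (F : Isom dim) (g : ZMod 5 × ZMod 5) (v : I → Fin 2 → ℂ) : Prop :=
  (∀ i, v i ∈ S (ψ i g)) ∧
    ∀ x i j, Φ (F x) (i, j) = e (c j * χ i g) * Φ x (i, j) + v i j

lemma ext_coord {x y : Euc dim} (h : ∀ i j, Φ x (i, j) = Φ y (i, j)) : x = y := by
  apply Φ.injective
  ext p
  exact h p.1 p.2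

lemma Rep.unique {F F' : Isom dim} {g : ZMod 5 × ZMod 5} {v : I → Fin 2 → ℂ}
    (h : Rep F g v) (h' : Rep F' g v) : F = F' := by
  exact isom_ext fun x => ext_coord fun i j => by rw [h.2, h'.2]

lemma Rep.mul {F F' : Isom dim} {g g' : ZMod 5 × ZMod 5} {v v' : I → Fin 2 → ℂ}
    (h : Rep F g v) (h' : Rep F' g' v') :
    Rep (F * F') (g + g') (fun i => (fun j => e (c j * χ i g) * v' i j) + v i) := by
  refine ⟨fun i => ?_, fun x i j => ?_⟩
  · have := S_add (S_rot (h'.1 i) (χ i g)) (h.1 i)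
    rw [ψ_add, add_comm (ψ i g)]
    exact this
  · rw [mul_map, h.2, h'.2, χ_add, mul_add (c j), e_add]
    simp only [Pi.add_apply]
    ring

lemma rep_one : Rep 1 0 (fun _ => 0) := by
  refine ⟨fun i => ?_, fun x i j => ?_⟩
  · rw [ψ_zero]; exact S_zero
  · simp

lemma Rep.inv {F : Isom dim} {g : ZMod 5 × ZMod 5} {v : I → Fin 2 → ℂ}
    (h : Rep F g v) : Rep F⁻¹ (-g) (fun i j => - (e (c j * χ i (-g)) * v i j)) := by
  refine ⟨fun i => ?_, fun x i j => ?_⟩
  · have := S_neg (S_rot (h.1 i) (χ i (-g)))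
    rw [ψ_neg]
    exact this
  · have h1 := h.2 (F⁻¹ x) i j
    have h2 : F (F⁻¹ x) = x := map_inv_map F x
    rw [h2] at h1
    have h3 : e (c j * χ i (-g)) * e (c j * χ i g) = 1 := by
      rw [← e_add, ← mul_add, χ_neg, neg_add_cancel, mul_zero, e_zero]
    rw [h1]
    linear_combination (-(Φ (F⁻¹ x)) (i, j)) * h3

/-- The Bieberbach group. -/
noncomputable def Γ : Subgroup (Isom dim) where
  carrier := {F | ∃ g v, Rep F g v}
  mul_mem' := by
    rintro F F' ⟨g, v, h⟩ ⟨g', v', h'⟩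
    exact ⟨_, _, h.mul h'⟩
  one_mem' := ⟨_, _, rep_one⟩
  inv_mem' := by
    rintro F ⟨g, v, h⟩
    exact ⟨_, _, h.inv⟩

/-- The unit complex number `e a`. -/
noncomputable def ec (a : ZMod 5) : Circle := ZMod.toCircle a

lemma coe_ec (a : ZMod 5) : (ec a : ℂ) = e a := (ZMod.stdAddChar_apply a).symm

/-- The holonomy representation. -/
noncomputable def ρ (g : ZMod 5 × ZMod 5) : V ≃ₗᵢ[ℝ] V :=
  LinearIsometryEquiv.piLpCongrRight 2 (fun p : I × Fin 2 => rotation (ec (c p.2 * χ p.1 g)))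

lemma ρ_apply (g : ZMod 5 × ZMod 5) (x : V) (i : I) (j : Fin 2) :
    ρ g x (i, j) = e (c j * χ i g) * x (i, j) := by
  unfold ρ
  rw [LinearIsometryEquiv.piLpCongrRight_apply]
  simp [rotation_apply, coe_ec]

/-- The affine isometry with given holonomy and translation part. -/
noncomputable def mk (g : ZMod 5 × ZMod 5) (v : I → Fin 2 → ℂ) : Isom dim :=
  ((Φ.trans (ρ g)).trans Φ.symm).toIsometryEquiv.trans
    (IsometryEquiv.addRight (Φ.symm (WithLp.toLp 2 fun p => v p.1 p.2)))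

lemma mk_apply (g : ZMod 5 × ZMod 5) (v : I → Fin 2 → ℂ) (x : Euc dim) (i : I) (j : Fin 2) :
    Φ (mk g v x) (i, j) = e (c j * χ i g) * Φ x (i, j) + v i j := by
  have h : mk g v x = Φ.symm (ρ g (Φ x)) + Φ.symm (WithLp.toLp 2 fun p => v p.1 p.2) := rfl
  rw [h, map_add, Φ.apply_symm_apply, Φ.apply_symm_apply, PiLp.add_apply, ρ_apply]

lemma rep_mk {g : ZMod 5 × ZMod 5} {v : I → Fin 2 → ℂ} (h : ∀ i, v i ∈ S (ψ i g)) :
    Rep (mk g v) g v := ⟨h, mk_apply g v⟩

lemma mk_linear (g : ZMod 5 × ZMod 5) (v : I → Fin 2 → ℂ) (x : Euc dim) (i : I) (j : Fin 2) :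
    Φ ((mk g v).linearPart x) (i, j) = e (c j * χ i g) * Φ x (i, j) := by
  unfold Isom.linearPart
  rw [map_sub, PiLp.sub_apply, mk_apply, mk_apply, map_zero]
  simp

lemma mem_Γ {F : Isom dim} : F ∈ Γ ↔ ∃ g v, Rep F g v := Iff.rfl

lemma norm_coord_le (y : V) (p : I × Fin 2) : ‖y p‖ ≤ ‖y‖ := PiLp.norm_apply_le y p

/-- A translation by `v` with values in `S 0`. -/
lemma rep_trans {v : I → Fin 2 → ℂ} (h : ∀ i, v i ∈ S 0) : Rep (mk 0 v) 0 v :=
  rep_mk fun i => by rw [ψ_zero]; exact h i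

/-- If `v` is small then the element is trivial. -/
lemma Rep.small {F : Isom dim} {g : ZMod 5 × ZMod 5} {v : I → Fin 2 → ℂ}
    (h : Rep F g v) (hs : ∀ i j, ‖v i j‖ < 1 / 8) : g = 0 ∧ v = 0 := by
  have h1 : ∀ i, v i = 0 ∧ ψ i g = 0 := fun i => S_small (h.1 i) (hs i)
  exact ⟨eq_zero_of fun i _ => (h1 i).2, funext fun i => (h1 i).1⟩

lemma Rep.eq_one {F : Isom dim} (h : Rep F 0 0) : F = 1 := h.unique rep_one

lemma discrete_Γ : IsDiscrete Γ := by
  refine ⟨1 / 8, by norm_num, ?_⟩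
  rintro γ ⟨g, v, h⟩ hγ
  have h0 := hγ 0 (by simp)
  rw [dist_zero_right] at h0
  obtain ⟨rfl, rfl⟩ := h.small fun i j => by
    have h1 := h.2 0 i j
    have hz : Φ (0 : Euc dim) (i, j) = 0 := by simp
    rw [hz, mul_zero, zero_add] at h1
    rw [← h1]
    calc ‖Φ (γ 0) (i, j)‖ ≤ ‖Φ (γ 0)‖ := norm_coord_le _ _
      _ = ‖γ 0‖ := Φ.norm_map _
      _ < 1 / 8 := h0
  exact h.eq_one

lemma cocompact_Γ : IsCocompact Γ := by
  set C : ℝ := Real.sqrt (∑ p : I × Fin 2, (25 * ‖τ p.2‖) ^ 2) with hC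
  refine ⟨Metric.closedBall 0 C, isCompact_closedBall _ _, fun x => ?_⟩
  have h : ∀ i : I, ∃ l ∈ S 0, ∀ j, ‖Φ x (i, j) - l j‖ ≤ 25 * ‖τ j‖ :=
    fun i => S_cocompact fun j => Φ x (i, j)
  choose l hl hlx using h
  have hrep : Rep (mk 0 fun i => -l i) 0 (fun i => -l i) :=
    rep_trans fun i => by simpa using S_neg (hl i)
  refine ⟨_, ⟨_, _, hrep⟩, ?_⟩
  rw [mem_closedBall_zero_iff, ← Φ.norm_map, EuclideanSpace.norm_eq, hC]
  refine Real.sqrt_le_sqrt (Finset.sum_le_sum fun p _ => ?_)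
  obtain ⟨i, j⟩ := p
  have h1 := hrep.2 x i j
  have h2 : e (c j * χ i 0) = 1 := by simp
  rw [h2, one_mul] at h1
  rw [h1]
  have h3 : Φ x (i, j) + (-l i) j = Φ x (i, j) - l i j := by simp [sub_eq_add_neg]
  rw [h3]
  exact pow_le_pow_left₀ (norm_nonneg _) (hlx i j) 2

lemma pow_coord {F : Isom dim} {g : ZMod 5 × ZMod 5} {v : I → Fin 2 → ℂ}
    (h : Rep F g v) {i : I} (hi : χ i g = 0) (n : ℕ) (x : Euc dim) (j : Fin 2) :
    Φ ((F ^ n) x) (i, j) = Φ x (i, j) + n * v i j := by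
  induction n with
  | zero => simp
  | succ n ih =>
    rw [pow_succ', mul_map, h.2, ih, hi]
    simp
    ring

lemma pow_rep {F : Isom dim} {g : ZMod 5 × ZMod 5} {v : I → Fin 2 → ℂ}
    (h : Rep F g v) (n : ℕ) : ∃ v', Rep (F ^ n) (n • g) v' := by
  induction n with
  | zero => exact ⟨_, by simpa using rep_one⟩
  | succ n ih =>
    obtain ⟨v', hv'⟩ := ih
    rw [pow_succ, succ_nsmul]
    exact ⟨_, hv'.mul h⟩

lemma torsionFree_Γ : IsTorsionFree Γ := by
  rintro γ ⟨g, v, h⟩ n hn hγ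
  have h0 : ∀ i, χ i g = 0 → v i = 0 := by
    intro i hi
    funext j
    have h1 := pow_coord h hi n 0 j
    rw [hγ] at h1
    have h2 : (n : ℂ) * v i j = 0 := by
      rw [one_map] at h1
      linear_combination -h1
    rcases mul_eq_zero.1 h2 with h3 | h3
    · exact absurd (by exact_mod_cast h3) hn
    · exact h3
  have hg : g = 0 := eq_zero_of fun i hi => by
    have h1 := h.1 i
    rw [h0 i hi] at h1
    exact (S_small h1 (by intro j; simp)).2
  subst hg
  have hv : v = 0 := funext fun i => h0 i (χ_zero i)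
  subst hv
  exact h.eq_one

lemma isBieberbach_Γ : IsBieberbach Γ := ⟨discrete_Γ, cocompact_Γ, torsionFree_Γ⟩

/-- The class of an element of the commutator subgroup. -/
lemma of_trans {g : ZMod 5 × ZMod 5} {l : I → Fin 2 → ℂ} (hl : ∀ i, l i ∈ S 0)
    {T : Isom dim} (hT : T ∈ Γ)
    (h : Rep T 0 (fun i j => (e (c j * χ i g) - 1) * l i j)) :
    Abelianization.of (⟨T, hT⟩ : Γ) = 1 := by
  -- an element with holonomy `g`
  obtain ⟨v, hv⟩ : ∃ v : I → Fin 2 → ℂ, ∀ i, v i ∈ S (ψ i g) := by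
    refine ⟨fun i j => τ j * ev (Pi.single 0 ((ψ i g).val : ℤ)) j, fun i =>
      ⟨Pi.single 0 ((ψ i g).val : ℤ), ?_, fun j => rfl⟩⟩
    simp
  have hP : Rep (mk g v) g v := rep_mk hv
  have hL : Rep (mk 0 l) 0 l := rep_trans hl
  have hcomm : mk g v * mk 0 l = T * (mk 0 l * mk g v) := by
    refine isom_ext fun x => ext_coord fun i j => ?_
    rw [(hP.mul hL).2, (h.mul (hL.mul hP)).2]
    simp
    ring
  have h1 : (⟨mk g v, ⟨_, _, hP⟩⟩ : Γ) * ⟨mk 0 l, ⟨_, _, hL⟩⟩ =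
      ⟨T, hT⟩ * (⟨mk 0 l, ⟨_, _, hL⟩⟩ * ⟨mk g v, ⟨_, _, hP⟩⟩) := Subtype.ext hcomm
  have h2 := congrArg Abelianization.of h1
  rw [map_mul, map_mul, map_mul, mul_comm (Abelianization.of (⟨mk 0 l, ⟨_, _, hL⟩⟩ : Γ))] at h2
  exact mul_eq_right.1 h2.symm

lemma b1_Γ : b1 Γ = 0 := by
  unfold b1
  rw [rank_eq_zero_iff]
  intro x
  refine ⟨25, by norm_num, ?_⟩
  obtain ⟨γ, rfl⟩ : ∃ γ : Γ, Additive.ofMul (Abelianization.of γ) = x := by
    obtain ⟨γ, hγ⟩ := QuotientGroup.mk_surjective (Additive.toMul x)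
    exact ⟨γ, congrArg Additive.ofMul hγ⟩
  rw [← ofMul_zpow, ofMul_eq_zero]
  obtain ⟨γ, g, v, h⟩ := γ
  -- the fifth power is a translation
  obtain ⟨v', h5⟩ := pow_rep h 5
  have hg : (5 : ℕ) • g = 0 := by
    have : ∀ g : ZMod 5 × ZMod 5, (5 : ℕ) • g = 0 := by decide
    exact this g
  rw [hg] at h5
  have hv' : ∀ i, v' i ∈ S 0 := fun i => by have := h5.1 i; rwa [ψ_zero] at this
  choose l hl hle using fun i => S_div (hv' i)
  -- the two commutators
  set l1 : I → Fin 2 → ℂ := fun i => if i = none then 0 else l i with hl1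
  set l2 : I → Fin 2 → ℂ := fun i => if i = none then l i else 0 with hl2
  have hl1' : ∀ i, l1 i ∈ S 0 := by
    intro i; rw [hl1]; dsimp only; split_ifs
    · exact S_zero
    · exact hl i
  have hl2' : ∀ i, l2 i ∈ S 0 := by
    intro i; rw [hl2]; dsimp only; split_ifs
    · exact hl i
    · exact S_zero
  have hmem : ∀ (a : ZMod 5) (u : Fin 2 → ℂ), u ∈ S 0 →
      (fun j => (e (c j * a) - 1) * u j) ∈ S 0 := by
    intro a u hu
    have := S_add (S_rot hu a) (S_neg hu)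
    rw [neg_zero, add_zero] at this
    convert this using 1
    funext j
    simp only [Pi.add_apply, Pi.neg_apply]
    ring
  have hr1 : Rep (mk 0 fun i j => (e (c j * χ i (1, 0)) - 1) * l1 i j) 0
      (fun i j => (e (c j * χ i (1, 0)) - 1) * l1 i j) := rep_trans fun i => hmem _ _ (hl1' i)
  have hr2 : Rep (mk 0 fun i j => (e (c j * χ i (0, 1)) - 1) * l2 i j) 0
      (fun i j => (e (c j * χ i (0, 1)) - 1) * l2 i j) := rep_trans fun i => hmem _ _ (hl2' i)
  have hof1 := of_trans hl1' ⟨_, _, hr1⟩ hr1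
  have hof2 := of_trans hl2' ⟨_, _, hr2⟩ hr2
  have heq : γ ^ 25 = (mk 0 fun i j => (e (c j * χ i (1, 0)) - 1) * l1 i j) *
      (mk 0 fun i j => (e (c j * χ i (0, 1)) - 1) * l2 i j) := by
    have h25 : γ ^ 25 = (γ ^ 5) ^ 5 := by rw [← pow_mul]
    rw [h25]
    refine isom_ext fun x => ext_coord fun i j => ?_
    rw [pow_coord h5 (χ_zero i), (hr1.mul hr2).2]
    have h1 := hle i j
    cases i with
    | none =>
      simp only [hl1, hl2, if_true, χ, Pi.zero_apply, mul_zero, e_zero, mul_one,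
        add_zero, Pi.add_apply]
      push_cast
      simp
      linear_combination -h1
    | some t =>
      simp only [hl1, hl2, χ, reduceCtorEq, if_false, Pi.zero_apply, mul_zero,
        mul_one, add_zero, Pi.add_apply, zero_add]
      push_cast
      simp
      linear_combination -h1
  have hsub : (⟨γ, g, v, h⟩ : Γ) ^ 25 = ⟨_, ⟨_, _, hr1⟩⟩ * ⟨_, ⟨_, _, hr2⟩⟩ := Subtype.ext heq
  have h3 := congrArg Abelianization.of hsub
  rw [map_pow, map_mul, hof1, hof2, one_mul] at h3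
  exact_mod_cast h3

end Pool.Agent.V1165.Flat
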